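import Mathlib
import Pool.Agent.R287.MTf

/-!
# Another excluded minor of `M'`

Some minor of the non-Fano matroid is an excluded minor of the class `M'` and is not isomorphic to
`U_{2,5}`, `U_{3,5}`, `F_7`, `F_7^*`. All elements of the p-characteristic set of the non-Fano
matroid are odd.
-/

set_option autoImplicit false

namespace Pool.Agent.Results.MP_cf16d9_co.NonFanoMinor

open R287.MT

/-- The excluded minors of `M'` are not exactly `U_{2,5}`, `U_{3,5}`, `F_7`, `F_7^*`: some minor of
the non-Fano matroid is an excluded minor not isomorphic to any of them. -/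
theorem result (fin : Prop) :
    (∀ v ∈ chi fin F7m, Odd v) ∧
    ∃ (E : Type) (_ : Fintype E) (_ : DecidableEq E) (N : RMatroid E),
      IsExcludedMinor fin N ∧ ¬ Iso N U25 ∧ ¬ Iso N U35 ∧ ¬ Iso N F7 ∧ ¬ Iso N F7dual ∧
      IsMinor N F7m :=
  ⟨odd_of_mem_chi fin, main fin⟩

end Pool.Agent.Results.MP_cf16d9_co.NonFanoMinor
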